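import Pool.Agent.Helper7.TowerZeta

set_option autoImplicit false

namespace Pool.Agent.Results.MP_ddfa9a_nt.ZpTowerRamification

open Pool.Agent.Helper7 Polynomial

/-- For every `ℤ_p`-tower of curves over a finite field of characteristic `p` with finite
ramification locus, the numerator of the zeta function of the `n`-th layer exists, is unique,
and the ramification index over `ℚ_p` of its splitting field is at least `p ^ n / C`, with `C`
independent of `n`. In particular it tends to infinity. -/
theorem result {p : ℕ} [Fact p.Prime] {k K Ω : Type*} [Field k] [Finite k] [CharP k p]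
    [Field K] [Field Ω] [Algebra k K] [Algebra K Ω] [Algebra k Ω] [IsScalarTower k K Ω]
    (T : ZpTower p k K Ω) (hS : T.ramificationLocus.Finite) :
    ∃ C : ℕ, 0 < C ∧ ∀ n : ℕ, (∃! P : ℤ[X], IsZetaNumerator (Nat.card k) (T.field n) P) ∧
      ∀ P : ℤ[X], IsZetaNumerator (Nat.card k) (T.field n) P →
        p ^ n ≤ C * ramIdx p (splittingFieldQp p P) :=
  T.main hS

end Pool.Agent.Results.MP_ddfa9a_nt.ZpTowerRamification
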